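import Pool.Agent.Results.MP_3122b6_ag.PrimePersistence

/-!
# Hypergraph Lovász–Saks–Schrijver ideals: the complete intersection property persists in `d`

Let `L_H(d)` be generated by a regular sequence `r_1, …, r_c`. In the local ring at the origin the
polynomials `f_A`, which are a minimal system of generators of `L_H(d)` since `H` is a clutter, can be
exchanged one by one with the elements `r_i`, so that the `f_A` are a regular sequence, first in the
local ring and then, by homogeneity, in `S`. The variables of the last column together with the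
`f_A^{(d+1)}` are then a regular sequence for `d + 1`, and homogeneous regular sequences can be
permuted.
-/

set_option autoImplicit false

open MvPolynomial Pool.Agent.Q271.LSS RingTheory.Sequence
open Pool.Agent.Results.MP_3122b6_ag.PrimePersistence

namespace Pool.Agent.Results.MP_3122b6_ag.CompleteIntersectionPersistence

section general

variable {R : Type*} [CommRing R]

lemma concat_iff (l : List R) (a : R) :
    IsWeaklyRegular R (l ++ [a]) ↔
      IsWeaklyRegular R l ∧ ∀ x, a * x ∈ Ideal.ofList l → x ∈ Ideal.ofList l := by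
  rw [isWeaklyRegular_append_iff, isWeaklyRegular_singleton_iff,
    isSMulRegular_quotient_iff_mem_of_smul_mem]
  simp only [smul_eq_mul, Ideal.mul_top]

variable [IsLocalRing R]

lemma exists_unit (J : Ideal R) (q : List R) :
    ∀ y ∈ J ⊔ Ideal.ofList q, y ∈ J ⊔ IsLocalRing.maximalIdeal R * Ideal.ofList q ∨
      ∃ l₁ r l₂, q = l₁ ++ r :: l₂ ∧ ∃ u, IsUnit u ∧ y - u * r ∈ J ⊔ Ideal.ofList (l₁ ++ l₂) := by
  induction q with
  | nil =>
    intro y hy
    left
    rw [Ideal.ofList_nil, sup_bot_eq] at hy
    exact Ideal.mem_sup_left hy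
  | cons r q ih =>
    intro y hy
    obtain ⟨j, hj, w, hw, rfl⟩ := Submodule.mem_sup.1 hy
    rw [Ideal.ofList_cons] at hw
    obtain ⟨v, hv, w, hwq, rfl⟩ := Submodule.mem_sup.1 hw
    clear hw hy
    obtain ⟨b, rfl⟩ := Ideal.mem_span_singleton'.1 hv
    by_cases hb : IsUnit b
    · right
      refine ⟨[], r, q, rfl, b, hb, ?_⟩
      have : j + (b * r + w) - b * r = j + w := by ring
      rw [this, List.nil_append]
      exact Submodule.add_mem_sup hj hwq
    · have hbm : b ∈ IsLocalRing.maximalIdeal R := (IsLocalRing.mem_maximalIdeal b).2 hb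
      rcases ih (j + w) (Submodule.add_mem_sup hj hwq) with h | ⟨l₁, r', l₂, rfl, u, hu, h⟩
      · left
        have h1 : j + (b * r + w) = (j + w) + b * r := by ring
        rw [h1]
        have h2 : Ideal.ofList q ≤ Ideal.ofList (r :: q) := by
          rw [Ideal.ofList_cons]; exact le_sup_right
        have h3 : J ⊔ IsLocalRing.maximalIdeal R * Ideal.ofList q ≤
            J ⊔ IsLocalRing.maximalIdeal R * Ideal.ofList (r :: q) :=
          sup_le_sup le_rfl (Ideal.mul_mono le_rfl h2)
        refine Ideal.add_mem _ (h3 h) (Ideal.mem_sup_right (Ideal.mul_mem_mul hbm ?_))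
        rw [Ideal.ofList_cons]
        exact Ideal.mem_sup_left (Ideal.mem_span_singleton_self r)
      · right
        refine ⟨r :: l₁, r', l₂, rfl, u, hu, ?_⟩
        have h1 : j + (b * r + w) - u * r' = (j + w - u * r') + b * r := by ring
        rw [h1]
        have h2 : Ideal.ofList (l₁ ++ l₂) ≤ Ideal.ofList (r :: l₁ ++ l₂) := by
          rw [List.cons_append, Ideal.ofList_cons]; exact le_sup_right
        refine Ideal.add_mem _ (sup_le_sup le_rfl h2 h) (Ideal.mem_sup_right ?_)
        rw [List.cons_append, Ideal.ofList_cons]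
        exact Ideal.mem_sup_left (Ideal.mul_mem_left _ _ (Ideal.mem_span_singleton_self r))

variable [IsNoetherianRing R]

/-- Exchange of the elements of a regular sequence in a local ring with a minimal system of
generators. -/
lemma exchange {I : Ideal R} {rs : List R} (hrs : IsWeaklyRegular R rs)
    (hI : Ideal.ofList rs = I) (hm : I ≤ IsLocalRing.maximalIdeal R) (p : List R)
    (hp : ∀ a ∈ p, a ∈ I)
    (hmin : ∀ l a, l ++ [a] <+: p → a ∉ Ideal.ofList l ⊔ IsLocalRing.maximalIdeal R * I) :
    ∃ rs', IsWeaklyRegular R (p ++ rs') ∧ Ideal.ofList (p ++ rs') = I := by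
  induction p using List.reverseRecOn with
  | nil => exact ⟨rs, hrs, hI⟩
  | append_singleton p a ih =>
    obtain ⟨rs', h1, h2⟩ := ih (fun b hb => hp b (List.mem_append_left _ hb))
      (fun l b hl => hmin l b (hl.trans (List.prefix_append p [a])))
    have haI : a ∈ I := hp a (by simp)
    have ha := hmin p a (List.prefix_refl _)
    have ha' : a ∈ Ideal.ofList p ⊔ Ideal.ofList rs' := by
      rw [← Ideal.ofList_append, h2]
      exact haI
    have hle : Ideal.ofList rs' ≤ I := by
      rw [← h2, Ideal.ofList_append]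
      exact le_sup_right
    rcases exists_unit _ _ a ha' with h | ⟨l₁, r, l₂, rfl, u, hu, h⟩
    · exact absurd (sup_le_sup le_rfl (Ideal.mul_mono le_rfl hle) h) ha
    · have hsub : ∀ x ∈ p ++ (l₁ ++ r :: l₂), x ∈ IsLocalRing.maximalIdeal R := by
        intro x hx
        apply hm
        rw [← h2]
        exact Ideal.subset_span hx
      have hperm : (p ++ (l₁ ++ r :: l₂)).Perm ((p ++ (l₁ ++ l₂)) ++ [r]) := by
        rw [List.append_assoc]
        refine List.Perm.append_left p ?_
        rw [List.append_assoc]
        exact List.Perm.append_left l₁ (List.perm_append_singleton r l₂).symm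
      have h3 := IsLocalRing.isWeaklyRegular_of_perm_of_subset_maximalIdeal h1 hperm hsub
      rw [concat_iff] at h3
      rw [← Ideal.ofList_append] at h
      have h4 : IsWeaklyRegular R ((p ++ (l₁ ++ l₂)) ++ [a]) := by
        rw [concat_iff]
        refine ⟨h3.1, fun x hx => h3.2 x ?_⟩
        have h5 : u * (r * x) ∈ Ideal.ofList (p ++ (l₁ ++ l₂)) := by
          have : u * (r * x) = a * x - (a - u * r) * x := by ring
          rw [this]
          exact Ideal.sub_mem _ hx (Ideal.mul_mem_right _ _ h)
        exact (Ideal.unit_mul_mem_iff_mem _ hu).1 h5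
      have hperm' : ((p ++ (l₁ ++ l₂)) ++ [a]).Perm ((p ++ [a]) ++ (l₁ ++ l₂)) := by
        rw [List.append_assoc, List.append_assoc p [a]]
        exact List.Perm.append_left p List.perm_append_comm
      have hsub' : ∀ x ∈ (p ++ (l₁ ++ l₂)) ++ [a], x ∈ IsLocalRing.maximalIdeal R := by
        intro x hx
        rw [List.mem_append] at hx
        rcases hx with hx | hx
        · apply hsub x
          simp only [List.mem_append, List.mem_cons] at hx ⊢
          tauto
        · rw [List.mem_singleton] at hx
          exact hx ▸ hm haI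
      refine ⟨l₁ ++ l₂, IsLocalRing.isWeaklyRegular_of_perm_of_subset_maximalIdeal h4 hperm' hsub', ?_⟩
      apply le_antisymm
      · refine Ideal.span_le.2 ?_
        intro x hx
        have hx' : x ∈ (p ++ [a]) ++ (l₁ ++ l₂) := hx
        have hxI : x ∈ p ++ (l₁ ++ r :: l₂) ∨ x = a := by
          simp only [List.mem_append, List.mem_cons] at hx' ⊢
          tauto
        rcases hxI with hxI | hxI
        · rw [SetLike.mem_coe, ← h2]
          exact Ideal.subset_span hxI
        · rw [SetLike.mem_coe, hxI]
          exact haI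
      · rw [← h2]
        refine Ideal.span_le.2 ?_
        intro x hx
        have hx' : x ∈ p ++ (l₁ ++ r :: l₂) := hx
        by_cases hxr : x = r
        · subst hxr
          have h5 : Ideal.ofList (p ++ (l₁ ++ l₂)) ≤ Ideal.ofList ((p ++ [a]) ++ (l₁ ++ l₂)) := by
            refine Ideal.span_mono ?_
            intro y hy
            have hy' : y ∈ p ++ (l₁ ++ l₂) := hy
            change y ∈ (p ++ [a]) ++ (l₁ ++ l₂)
            simp only [List.mem_append, List.mem_singleton] at hy' ⊢
            tauto
          have h6 : a ∈ Ideal.ofList ((p ++ [a]) ++ (l₁ ++ l₂)) :=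
            Ideal.subset_span (by
              change a ∈ (p ++ [a]) ++ (l₁ ++ l₂)
              simp)
          have h7 : u * x ∈ Ideal.ofList ((p ++ [a]) ++ (l₁ ++ l₂)) := by
            have : u * x = a - (a - u * x) := by ring
            rw [this]
            exact Ideal.sub_mem _ h6 (h5 h)
          exact (Ideal.unit_mul_mem_iff_mem _ hu).1 h7
        · refine Ideal.subset_span ?_
          change x ∈ (p ++ [a]) ++ (l₁ ++ l₂)
          simp only [List.mem_append, List.mem_cons] at hx' ⊢
          tauto

end general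

section origin

variable {k σ : Type*} [Field k]

/-- The ideal of the origin. -/
noncomputable def orig (k σ : Type*) [Field k] : Ideal (MvPolynomial σ k) :=
  RingHom.ker (constantCoeff : MvPolynomial σ k →+* k)

instance : (orig k σ).IsPrime := RingHom.ker_isPrime _

/-- The local ring at the origin. -/
abbrev Loc (k σ : Type*) [Field k] := Localization.AtPrime (orig k σ)

lemma isUnit_of_notMem {s : MvPolynomial σ k} (hs : s ∈ (orig k σ).primeCompl) :
    constantCoeff s ≠ 0 := by
  intro h
  exact hs ((RingHom.mem_ker).2 h)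

lemma mem_of_algebraMap {G : Set (MvPolynomial σ k)} (hG : ∀ g ∈ G, ∃ n, g.IsHomogeneous n)
    {x : MvPolynomial σ k}
    (hx : algebraMap _ (Loc k σ) x ∈ (Ideal.span G).map (algebraMap _ (Loc k σ))) :
    x ∈ Ideal.span G := by
  obtain ⟨⟨⟨a, ha⟩, s⟩, hs⟩ := (IsLocalization.mem_map_algebraMap_iff (orig k σ).primeCompl
    (Loc k σ)).1 hx
  simp only at hs
  rw [← map_mul] at hs
  obtain ⟨c, hc⟩ := (IsLocalization.eq_iff_exists (orig k σ).primeCompl (Loc k σ)).1 hs
  have h1 : (c : MvPolynomial σ k) * (s : MvPolynomial σ k) * x ∈ Ideal.span G := by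
    have : (c : MvPolynomial σ k) * (s : MvPolynomial σ k) * x = c * (x * s) := by ring
    rw [this, hc]
    exact Ideal.mul_mem_left _ _ ha
  have hne : constantCoeff ((c : MvPolynomial σ k) * (s : MvPolynomial σ k)) ≠ 0 :=
    isUnit_of_notMem (c * s).2
  set e := constantCoeff ((c : MvPolynomial σ k) * (s : MvPolynomial σ k)) with he
  refine mem_of_mul_mem hG
    (r := C e⁻¹ * ((c : MvPolynomial σ k) * (s : MvPolynomial σ k))) ?_ ?_
  · rw [map_mul, constantCoeff_C, ← he, inv_mul_cancel₀ hne]
  · rw [mul_assoc]
    exact Ideal.mul_mem_left _ _ h1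

lemma weaklyRegular_iff_loc {l : List (MvPolynomial σ k)}
    (hl : ∀ g ∈ l, ∃ n, g.IsHomogeneous n) :
    IsWeaklyRegular (Loc k σ) (l.map (algebraMap _ (Loc k σ))) →
      IsWeaklyRegular (MvPolynomial σ k) l := by
  induction l using List.reverseRecOn with
  | nil => intro _; exact IsWeaklyRegular.nil _ _
  | append_singleton l a ih =>
    intro h
    rw [List.map_append, List.map_singleton, concat_iff] at h
    rw [concat_iff]
    have hl' : ∀ g ∈ l, ∃ n, g.IsHomogeneous n := fun g hg => hl g (List.mem_append_left _ hg)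
    refine ⟨ih hl' h.1, fun x hx => ?_⟩
    refine mem_of_algebraMap (G := {g | g ∈ l}) hl' ?_
    have h1 := h.2 (algebraMap _ (Loc k σ) x) (by
      rw [← map_mul, ← Ideal.map_ofList]
      exact Ideal.mem_map_of_mem _ hx)
    rw [← Ideal.map_ofList] at h1
    exact h1

end origin

section clutter

variable {k : Type*} [Field k] {V : Type*} [DecidableEq V] {d : ℕ}

/-- Restriction to a line through the origin. -/
noncomputable def line (k : Type*) [Field k] {V : Type*} [DecidableEq V] {d : ℕ} (j₀ : Fin d)
    (A : Finset V) : MvPolynomial (V × Fin d) k →+* PowerSeries k :=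
  eval₂Hom (PowerSeries.C : k →+* PowerSeries k)
    (fun x => if x.2 = j₀ ∧ x.1 ∈ A then PowerSeries.X else 0)

lemma constantCoeff_line (j₀ : Fin d) (A : Finset V) (s : MvPolynomial (V × Fin d) k) :
    PowerSeries.constantCoeff (line k j₀ A s) = constantCoeff s := by
  have h : (PowerSeries.constantCoeff (R := k)).comp (line k j₀ A) =
      (constantCoeff : MvPolynomial (V × Fin d) k →+* k) := by
    apply MvPolynomial.ringHom_ext
    · intro a
      simp [line]
    · intro x
      rw [RingHom.comp_apply, line, coe_eval₂Hom, eval₂_X, constantCoeff_X]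
      split_ifs <;> simp
  exact congrArg (fun f => f s) h

lemma line_edgePoly (j₀ : Fin d) (A : Finset V) {B : Finset V} (hB : B.Nonempty) :
    line k j₀ A (edgePoly k d B) = if B ⊆ A then PowerSeries.X ^ B.card else 0 := by
  unfold edgePoly
  rw [map_sum, Finset.sum_eq_single j₀]
  · rw [map_prod]
    split_ifs with hBA
    · rw [Finset.prod_congr rfl (g := fun _ => PowerSeries.X), Finset.prod_const]
      intro i hi
      rw [line, coe_eval₂Hom, eval₂_X, if_pos ⟨rfl, hBA hi⟩]
    · obtain ⟨i, hi, hi'⟩ := Finset.not_subset.1 hBA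
      refine Finset.prod_eq_zero hi ?_
      rw [line, coe_eval₂Hom, eval₂_X, if_neg (fun h => hi' h.2)]
  · intro j _ hj
    obtain ⟨b, hb⟩ := hB
    rw [map_prod]
    refine Finset.prod_eq_zero hb ?_
    rw [line, coe_eval₂Hom, eval₂_X, if_neg (fun h => hj h.1)]
  · intro h
    exact absurd (Finset.mem_univ _) h

/-- The restriction to a line on the local ring. -/
noncomputable def lineLoc (k : Type*) [Field k] {V : Type*} [DecidableEq V] {d : ℕ} (j₀ : Fin d)
    (A : Finset V) : Loc k (V × Fin d) →+* PowerSeries k :=
  IsLocalization.lift (M := (orig k (V × Fin d)).primeCompl) (g := line k j₀ A) (by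
    intro s
    rw [PowerSeries.isUnit_iff_constantCoeff, constantCoeff_line]
    exact isUnit_iff_ne_zero.2 (isUnit_of_notMem s.2))

lemma lineLoc_algebraMap (j₀ : Fin d) (A : Finset V) (s : MvPolynomial (V × Fin d) k) :
    lineLoc k j₀ A (algebraMap _ _ s) = line k j₀ A s :=
  IsLocalization.lift_eq _ _

lemma lineLoc_maximal (j₀ : Fin d) (A : Finset V) {x : Loc k (V × Fin d)}
    (hx : x ∈ IsLocalRing.maximalIdeal (Loc k (V × Fin d))) :
    lineLoc k j₀ A x ∈ Ideal.span {(PowerSeries.X : PowerSeries k)} := by
  rw [← Localization.AtPrime.map_eq_maximalIdeal] at hx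
  have h1 : (orig k (V × Fin d)).map (algebraMap _ (Loc k (V × Fin d))) ≤
      (Ideal.span {(PowerSeries.X : PowerSeries k)}).comap (lineLoc k j₀ A) := by
    rw [Ideal.map_le_iff_le_comap]
    intro s hs
    rw [Ideal.mem_comap, Ideal.mem_comap, lineLoc_algebraMap, Ideal.mem_span_singleton,
      PowerSeries.X_dvd_iff, constantCoeff_line]
    exact hs
  exact h1 hx

variable {E : Set (Finset V)}

/-- The polynomials `f_A` are a minimal system of generators in the local ring. -/
lemma edge_minimal (hE : IsClutter E) (hd : 1 ≤ d) {l : List (Finset V)} {A : Finset V}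
    (hl : ∀ B ∈ l, B ∈ E) (hA : A ∈ E) (hAl : A ∉ l) :
    algebraMap _ (Loc k (V × Fin d)) (edgePoly k d A) ∉
      Ideal.ofList ((l.map (edgePoly k d)).map (algebraMap _ (Loc k (V × Fin d)))) ⊔
        IsLocalRing.maximalIdeal (Loc k (V × Fin d)) *
          (lss k d E).map (algebraMap _ (Loc k (V × Fin d))) := by
  intro hmem
  have h1 : Ideal.ofList ((l.map (edgePoly k d)).map (algebraMap _ (Loc k (V × Fin d)))) ⊔
        IsLocalRing.maximalIdeal (Loc k (V × Fin d)) *
          (lss k d E).map (algebraMap _ (Loc k (V × Fin d))) ≤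
      (Ideal.span {(PowerSeries.X ^ (A.card + 1) : PowerSeries k)}).comap
        (lineLoc k (⟨0, hd⟩ : Fin d) A) := by
    refine sup_le ?_ ?_
    · refine Ideal.span_le.2 ?_
      intro x hx
      have hx' : x ∈ (l.map (edgePoly k d)).map (algebraMap _ (Loc k (V × Fin d))) := hx
      rw [List.mem_map] at hx'
      obtain ⟨y, hy, rfl⟩ := hx'
      rw [List.mem_map] at hy
      obtain ⟨B, hB, rfl⟩ := hy
      rw [SetLike.mem_coe, Ideal.mem_comap, lineLoc_algebraMap,
        line_edgePoly _ _ (hE.1 B (hl B hB)), if_neg]
      · exact Ideal.zero_mem _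
      · intro hBA
        have := hE.2 B (hl B hB) A hA hBA
        exact hAl (this ▸ hB)
    · rw [Ideal.mul_le]
      intro x hx y hy
      have h2 : (lss k d E).map (algebraMap _ (Loc k (V × Fin d))) ≤
          (Ideal.span {(PowerSeries.X ^ A.card : PowerSeries k)}).comap
            (lineLoc k (⟨0, hd⟩ : Fin d) A) := by
        rw [Ideal.map_le_iff_le_comap]
        unfold lss
        rw [Ideal.span_le]
        rintro _ ⟨B, hB, rfl⟩
        rw [SetLike.mem_coe, Ideal.mem_comap, Ideal.mem_comap, lineLoc_algebraMap,
          line_edgePoly _ _ (hE.1 B hB)]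
        split_ifs with hBA
        · rw [hE.2 B hB A hA hBA]
          exact Ideal.mem_span_singleton_self _
        · exact Ideal.zero_mem _
      have h3 := lineLoc_maximal (⟨0, hd⟩ : Fin d) A hx
      have h4 := h2 hy
      rw [Ideal.mem_comap, Ideal.mem_span_singleton] at h4
      rw [Ideal.mem_span_singleton] at h3
      rw [Ideal.mem_comap, map_mul, Ideal.mem_span_singleton, pow_succ']
      exact mul_dvd_mul h3 h4
  have h2 := h1 hmem
  rw [Ideal.mem_comap, lineLoc_algebraMap, line_edgePoly _ _ (hE.1 A hA),
    if_pos (Finset.Subset.refl A), Ideal.mem_span_singleton, PowerSeries.X_pow_dvd_iff] at h2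
  have h3 := h2 A.card (Nat.lt_succ_self _)
  rw [PowerSeries.coeff_X_pow, if_pos rfl] at h3
  exact one_ne_zero h3

omit [DecidableEq V] in
lemma ofList_edge (l : List (Finset V)) :
    Ideal.ofList (l.map (edgePoly k d)) = lss k d {B | B ∈ l} := by
  unfold lss Ideal.ofList
  congr 1
  ext x
  simp

/-- If `L_H(d)` is a complete intersection then the polynomials `f_A` are a regular sequence. -/
lemma weaklyRegular_of_ci [Finite V] (hE : IsClutter E) (hd : 1 ≤ d)
    (hCI : IsCompleteIntersection (lss k d E)) {l : List (Finset V)} (hnd : l.Nodup)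
    (hl : ∀ A ∈ l, A ∈ E) :
    IsWeaklyRegular (MvPolynomial (V × Fin d) k) (l.map (edgePoly k d)) := by
  obtain ⟨rs, hrs, hofl⟩ := hCI
  apply weaklyRegular_iff_loc
  · intro g hg
    rw [List.mem_map] at hg
    obtain ⟨A, _, rfl⟩ := hg
    exact ⟨_, edgePoly_isHomogeneous A⟩
  have h1 : IsWeaklyRegular (Loc k (V × Fin d)) (rs.map (algebraMap _ (Loc k (V × Fin d)))) :=
    hrs.toIsWeaklyRegular.of_isLocalization (Loc k (V × Fin d)) (orig k (V × Fin d)).primeCompl
  obtain ⟨rs', h2, -⟩ := exchange (I := (lss k d E).map (algebraMap _ (Loc k (V × Fin d)))) h1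
    (by rw [← Ideal.map_ofList, hofl]) (by
      rw [← Localization.AtPrime.map_eq_maximalIdeal]
      refine Ideal.map_mono ?_
      unfold lss
      rw [Ideal.span_le]
      rintro _ ⟨A, hA, rfl⟩
      exact constantCoeff_edgePoly (hE.1 A hA))
    ((l.map (edgePoly k d)).map (algebraMap _ (Loc k (V × Fin d)))) (by
      intro a ha
      rw [List.mem_map] at ha
      obtain ⟨y, hy, rfl⟩ := ha
      rw [List.mem_map] at hy
      obtain ⟨B, hB, rfl⟩ := hy
      exact Ideal.mem_map_of_mem _ (Ideal.subset_span ⟨B, hl B hB, rfl⟩)) (by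
      intro l' a hpre
      rw [List.map_map] at hpre
      obtain ⟨t, ht⟩ := hpre
      have ht' := ht.symm
      rw [List.append_assoc] at ht'
      obtain ⟨l₁, l₂, rfl, h3, h4⟩ := List.map_eq_append_iff.1 ht'
      rw [List.singleton_append] at h4
      obtain ⟨A, l₃, rfl, rfl, h5⟩ := List.map_eq_cons_iff.1 h4
      have h6 := edge_minimal (k := k) hE hd (l := l₁) (A := A)
        (fun B hB => hl B (List.mem_append_left _ hB)) (hl A (by simp)) (by
          intro hA
          have := List.nodup_append.1 hnd
          exact this.2.2 A hA A (by simp) rfl)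
      rw [List.map_map, h3] at h6
      exact h6)
  exact ((isWeaklyRegular_append_iff _ _ _).1 h2).1

lemma comap_piH {E : Set (Finset V)} (hE : ∀ A ∈ E, A.Nonempty) :
    Ideal.span (gens k d (Set.univ : Set V) E) = (lss k d E).comap (piH k d) := by
  apply le_antisymm
  · rw [Ideal.span_le]
    rintro _ (⟨v, hv, rfl⟩ | ⟨A, hA, rfl⟩)
    · rw [SetLike.mem_coe, Ideal.mem_comap, piH_last]
      exact Ideal.zero_mem _
    · rw [SetLike.mem_coe, Ideal.mem_comap, piH_edgePoly (hE A hA)]
      exact Ideal.subset_span ⟨A, hA, rfl⟩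
  · intro t ht
    rw [Ideal.mem_comap] at ht
    set B := Ideal.span (gens k d (Set.univ : Set V) E) with hB
    have hX : ∀ v : V, (X (v, Fin.last d) : MvPolynomial (V × Fin (d + 1)) k) ∈ B := fun v =>
      Ideal.subset_span (Or.inl ⟨v, trivial, rfl⟩)
    have h1 : (Ideal.Quotient.mk B).comp ((iotaH k d).comp (piH k d)) =
        Ideal.Quotient.mk B := by
      apply MvPolynomial.ringHom_ext
      · intro a
        rw [RingHom.comp_apply, RingHom.comp_apply, piH_C, iotaH_C]
      · rintro ⟨v, j⟩
        rw [RingHom.comp_apply, RingHom.comp_apply]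
        refine Fin.lastCases ?_ (fun j => ?_) j
        · rw [piH_last, map_zero, map_zero]
          exact (Ideal.Quotient.eq_zero_iff_mem.2 (hX v)).symm
        · rw [piH_castSucc, iotaH_X]
    have h2 : lss k d E ≤ B.comap (iotaH k d) := by
      unfold lss
      rw [Ideal.span_le]
      rintro _ ⟨A, hA, rfl⟩
      rw [SetLike.mem_coe, Ideal.mem_comap]
      have h3 : edgePoly k (d + 1) A ∈ B := Ideal.subset_span (Or.inr ⟨A, hA, rfl⟩)
      obtain ⟨a, ha⟩ := hE A hA
      have h4 : (∏ i ∈ A, X (i, Fin.last d) : MvPolynomial (V × Fin (d + 1)) k) ∈ B := by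
        rw [← Finset.mul_prod_erase A _ ha]
        exact B.mul_mem_right _ (hX a)
      have h5 := B.sub_mem h3 h4
      rwa [iotaH_edgePoly, add_sub_cancel_right] at h5
    have h3 := h2 ht
    rw [Ideal.mem_comap] at h3
    have h4 := congrArg (fun f => f t) h1
    simp only [RingHom.comp_apply] at h4
    rw [Ideal.Quotient.eq_zero_iff_mem.2 h3] at h4
    exact Ideal.Quotient.eq_zero_iff_mem.1 h4.symm

/-- The variables of the last column. -/
lemma vars_regular [Finite V] (hd : 1 ≤ d) (l : List V) (hnd : l.Nodup) :
    IsWeaklyRegular (MvPolynomial (V × Fin (d + 1)) k)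
      (l.map fun v => (X (v, Fin.last d) : MvPolynomial (V × Fin (d + 1)) k)) := by
  induction l using List.reverseRecOn with
  | nil => exact IsWeaklyRegular.nil _ _
  | append_singleton l v ih =>
    rw [List.map_append, List.map_singleton, concat_iff]
    have hnd' := List.nodup_append.1 hnd
    refine ⟨ih hnd'.1, fun x hx => ?_⟩
    have hof : Ideal.ofList (l.map fun v => (X (v, Fin.last d) : MvPolynomial (V × Fin (d + 1)) k)) =
        Ideal.span (gens k d {u | u ∈ l} (∅ : Set (Finset V))) := by
      unfold gens Ideal.ofList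
      congr 1
      ext x
      simp
    rw [hof] at hx ⊢
    have hv : v ∉ {u | u ∈ l} := fun h => hnd'.2.2 v h v (by simp) rfl
    have hcl : IsClutter (∅ : Set (Finset V)) := ⟨by simp, by simp⟩
    exact ((prime_vars (k := k) (d := d) {u | u ∈ l}).mem_or_mem hx).resolve_left
      (X_notMem hcl hd hv (Set.Subset.refl _))

/-- The complete intersection property persists. -/
theorem ci_succ [Finite V] (hE : IsClutter E) (hd : 1 ≤ d)
    (hCI : IsCompleteIntersection (lss k d E)) : IsCompleteIntersection (lss k (d + 1) E) := by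
  classical
  have : Fintype V := Fintype.ofFinite V
  set vs : List V := (Finset.univ : Finset V).toList with hvs
  set zs : List (MvPolynomial (V × Fin (d + 1)) k) := vs.map fun v => X (v, Fin.last d) with hzs
  have key : ∀ l : List (Finset V), l.Nodup → (∀ A ∈ l, A ∈ E) →
      IsWeaklyRegular (MvPolynomial (V × Fin (d + 1)) k) (zs ++ l.map (edgePoly k (d + 1))) := by
    intro l
    induction l using List.reverseRecOn with
    | nil =>
      intro _ _
      rw [List.map_nil, List.append_nil]
      exact vars_regular hd vs (Finset.nodup_toList _)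
    | append_singleton l A ih =>
      intro hnd hl
      have hnd' := List.nodup_append.1 hnd
      have hl' : ∀ B ∈ l, B ∈ E := fun B hB => hl B (List.mem_append_left _ hB)
      rw [List.map_append, List.map_singleton, ← List.append_assoc, concat_iff]
      refine ⟨ih hnd'.1 hl', fun x hx => ?_⟩
      have hof : Ideal.ofList (zs ++ l.map (edgePoly k (d + 1))) =
          Ideal.span (gens k d (Set.univ : Set V) {B | B ∈ l}) := by
        unfold gens Ideal.ofList
        congr 1
        ext x
        simp [hzs, hvs]
      have hcm := comap_piH (k := k) (d := d) (E := {B | B ∈ l}) (fun B hB => hE.1 B (hl' B hB))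
      rw [hof, hcm, Ideal.mem_comap] at hx ⊢
      rw [map_mul, piH_edgePoly (hE.1 A (hl A (by simp)))] at hx
      have h1 := weaklyRegular_of_ci hE hd hCI hnd hl
      rw [List.map_append, List.map_singleton, concat_iff, ofList_edge] at h1
      exact h1.2 _ hx
  have hperm : ∀ l : List (Finset V), l.Nodup → (∀ A ∈ l, A ∈ E) →
      IsWeaklyRegular (MvPolynomial (V × Fin (d + 1)) k) (l.map (edgePoly k (d + 1))) := by
    intro l hnd hl
    have h1 : IsWeaklyRegular (MvPolynomial (V × Fin (d + 1)) k)
        (l.map (edgePoly k (d + 1)) ++ zs) := by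
      apply weaklyRegular_iff_loc
      · intro g hg
        rw [List.mem_append, List.mem_map] at hg
        rcases hg with ⟨A, _, rfl⟩ | hg
        · exact ⟨_, edgePoly_isHomogeneous A⟩
        · rw [hzs, List.mem_map] at hg
          obtain ⟨v, _, rfl⟩ := hg
          exact ⟨1, isHomogeneous_X _ _⟩
      · refine IsLocalRing.isWeaklyRegular_of_perm_of_subset_maximalIdeal
          ((key l hnd hl).of_isLocalization (Loc k (V × Fin (d + 1)))
            (orig k (V × Fin (d + 1))).primeCompl)
          (List.Perm.map _ List.perm_append_comm) ?_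
        intro x hx
        rw [List.mem_map] at hx
        obtain ⟨y, hy, rfl⟩ := hx
        rw [← Localization.AtPrime.map_eq_maximalIdeal]
        refine Ideal.mem_map_of_mem _ ?_
        rw [List.mem_append] at hy
        rcases hy with hy | hy
        · rw [hzs, List.mem_map] at hy
          obtain ⟨v, _, rfl⟩ := hy
          exact constantCoeff_X _ _
        · rw [List.mem_map] at hy
          obtain ⟨A, hA, rfl⟩ := hy
          exact constantCoeff_edgePoly (hE.1 A (hl A hA))
    exact ((isWeaklyRegular_append_iff _ _ _).1 h1).1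
  have hfin := Set.toFinite E
  have hmemE : ∀ A, A ∈ hfin.toFinset.toList ↔ A ∈ E := fun A => by
    rw [Finset.mem_toList, Set.Finite.mem_toFinset]
  refine ⟨(hfin.toFinset.toList).map (edgePoly k (d + 1)),
    ⟨hperm _ (Finset.nodup_toList _) (fun A hA => (hmemE A).1 hA), ?_⟩, ?_⟩
  · rw [ofList_edge, smul_eq_mul, Ideal.mul_top]
    intro htop
    have h1 : lss k (d + 1) {B | B ∈ hfin.toFinset.toList} ≤ orig k (V × Fin (d + 1)) := by
      unfold lss
      rw [Ideal.span_le]
      rintro _ ⟨A, hA, rfl⟩
      exact constantCoeff_edgePoly (hE.1 A ((hmemE A).1 hA))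
    rw [← htop] at h1
    have hpr : (orig k (V × Fin (d + 1))).IsPrime := inferInstance
    exact hpr.ne_top (top_le_iff.1 h1)
  · rw [ofList_edge]
    congr 1
    ext B
    exact hmemE B

end clutter

/-- Q1: for a clutter `E` of nonempty subsets of a finite set `V`, `d ≥ 1` and a field `k`, if
`L_H(d)` is a complete intersection, then so is `L_H(d+1)`. -/
theorem result (k : Type*) [Field k] (V : Type*) [Finite V] [DecidableEq V]
    (E : Set (Finset V)) (hE : IsClutter E) (d : ℕ) (hd : 1 ≤ d)
    (hCI : IsCompleteIntersection (lss k d E)) : IsCompleteIntersection (lss k (d + 1) E) :=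
  ci_succ hE hd hCI

end Pool.Agent.Results.MP_3122b6_ag.CompleteIntersectionPersistence
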